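import Pool.Agent.P.MP_c2263a_gt.Seven.Vec
import Pool.Agent.P.MP_c2263a_gt.All.Odd

/-! A core system on seven points. -/

set_option autoImplicit false

namespace Pool.Agent.P.MP_c2263a_gt.Seven

open Finset Matrix ComplexConjugate Complex Pool.Agent.P.MP_c2263a_gt.Fix
  Pool.Agent.P.MP_c2263a_gt.All

section gen

variable {k : ℕ} [NeZero k] {Z : Type} [Fintype Z] {y : Z → ZMod k} {c : Z → Fin 3} {t β : Z → ℝ}
  {ν : Z ≃ Z} {a κ0 : ℝ} {j0 : ZMod k}

theorem core2 (F : Fam y c t β ν a κ0 j0) (ε : Fin 4 → ℝ) (hε : ∀ g, ε g = 1 ∨ ε g = -1)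
    (V : Fin 4 → Fin 3 → ZMod k → Fin 4 → ℂ) (Vn : ∀ g e d j, V g e (-j) d = conj (V g e j d))
    (V0 : ∀ g e, V g e 0 = 0)
    (g1 : ∀ g e f j, ∑ d, conj (V g e j d) * V g f j d =
      ((if e = f then 2 * k - 4 * a + (if j = 0 then k * (-2 : ℝ) else 0) +
        (cq y c t j (e + 1) + cq y c t j (e + 2)) else 0 : ℝ) : ℂ) +
        I * (ε g * ∑ p, kp y c β j p * Jm p e f : ℝ))
    (g2 : ∀ g h, g ≠ h → ∀ e f j,
      ∑ d, conj (V g e j d) * V h f j d = -∑ d, conj (V g f j d) * V h e j d)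
    {D E : Fin 3 → ℝ} (g3 : ∀ g h, g ≠ h → ∀ e f, ∑ j, (∑ d, conj (∑ d', conj (V g e j d') *
      V h d j d') * ∑ d', conj (V g f j d') * V h d j d').re =
        (if e = f then D (ax g h) else 0) - E (ax g h)) {μ : ℝ}
    (h1 : ∀ s, μ ≤ D (s + 1) + D (s + 2) - D s)
    (h2 : ∀ s, μ ≤ (D (s + 1) - 3 * E (s + 1)) + (D (s + 2) - 3 * E (s + 2)) - (D s - 3 * E s)) :
    ∃ (v : Fin 4 → ZMod k → Fin 3 → {j : ZMod k // j ≠ 0} × Fin 4 → ℝ) (L : ℝ),
      Core v (2 * k - 2 - 4 * a) (2 * k - 4 * a - ∑ z, (t z + |β z|)) (μ / k) L := by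
  have k0 : (0 : ℝ) < k := by exact_mod_cast NeZero.pos k
  have Vs : ∀ g e d, Sym fun j => V g e j d := Vn
  let v : Fin 4 → ZMod k → Fin 3 → {j : ZMod k // j ≠ 0} × Fin 4 → ℝ := fun g s e => hv (V g e) s
  have gram : ∀ g h s s' e f, v g s e ⬝ᵥ v h s' f =
      fo (fun j => ∑ d, conj (V g e j d) * V h f j d) (s' - s) :=
    fun g h s s' e f => hv_dot (Vs g e) (Vs h f) (V0 g e) s s'
  have same : ∀ g s s' e f, v g s e ⬝ᵥ v g s' f =
      (if s' - s = 0 then (if e = f then 2 * k - 4 * a else 0) else 0) + (if e = f then -2 else 0) +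
        ∑ z, if s' - s + y z = 0 then Pm (c z) (ε g) (t z) (β z) e f else 0 := by
    intro g s s' e f
    rw [gram, ← fo_const, ← fo_delta (if e = f then -2 else 0) (s' - s), ← fo_ft, ← fo_add,
      ← fo_add]
    congr 1
    funext j
    have e2 : ft y (fun z => Pm (c z) (ε g) (t z) (β z) e f) j =
        (if e = f then ft y (cut c t (e + 1)) j + ft y (cut c t (e + 2)) j else 0) +
          ∑ p, (ε g * Jm p e f : ℝ) * ft y (cut c β p) j := by
      simp only [ft, mul_sum]
      rw [sum_comm]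
      split_ifs with h
      · rw [← sum_add_distrib, ← sum_add_distrib]
        refine sum_congr rfl fun z _ => ?_
        simp only [Pm, if_pos h, cut, apply_ite ((↑) : ℝ → ℂ), ofReal_zero, ite_mul, mul_ite,
          zero_mul, mul_zero, sum_ite_eq, mem_univ, if_true, ofReal_add, add_mul, ofReal_mul]
        ring
      · rw [zero_add]
        refine sum_congr rfl fun z _ => ?_
        simp only [Pm, if_neg h, cut, apply_ite ((↑) : ℝ → ℂ), ofReal_zero, ite_mul, mul_ite,
          zero_mul, mul_zero, sum_ite_eq, mem_univ, if_true, zero_add, ofReal_mul]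
        ring
    have hs : I * (ε g * ∑ p, kp y c β j p * Jm p e f : ℝ) =
        ∑ p, (ε g * Jm p e f : ℝ) * ft y (cut c β p) j := by
      simp only [← F.kp_eq]
      push_cast
      rw [mul_sum, mul_sum]
      exact sum_congr rfl fun p _ => by ring
    rw [g1, e2, hs]
    simp only [← F.cq_eq]
    by_cases h : e = f
    · simp only [if_pos h]
      split_ifs <;> push_cast <;> ring
    · simp [if_neg h]
  have sq : ∀ g h, g ≠ h → ∀ e f, ∑ s, sq2 v g h 0 s e f =
      (if e = f then D (ax g h) / k else 0) - E (ax g h) / k := by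
    intro g h ne e f
    simp only [sq2, gram, sub_zero]
    rw [sum_comm]
    have sy : ∀ d, Sym fun j => ∑ d', conj (V g e j d') * V h d j d' := fun d j => by
      simp only [map_sum, map_mul, Vn]
    simp only [fun d => pars (ψ := fun j => ∑ d', conj (V g f j d') * V h d j d') (sy d),
      ← sum_div, ← re_sum]
    rw [sum_comm, re_sum, g3 g h ne, sub_div]
    split_ifs <;> simp
  obtain ⟨L, hL⟩ := marg2 (fun r => D r / k) (fun r => E r / k) (μ := μ / k) (fun s => by
      rw [← add_div, ← sub_div]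
      exact div_le_div_of_nonneg_right (h1 s) k0.le) fun s => by
    refine (div_le_div_of_nonneg_right (h2 s) k0.le).trans_eq ?_
    ring
  refine ⟨v, L, fun g h s s' γ e f => ?_, fun g s e f => ?_, fun g s s' ne e f => ?_,
    fun g f => ?_, fun g h ne s s' e f => ?_, fun G => (hL G).trans_eq ?_⟩
  · rw [gram, gram, add_sub_add_right_eq_sub]
  · simp only [same, sub_self, if_true, zero_add, if_neg (F.ne _), sum_const_zero]
    split_ifs <;> ring
  · simp only [same, if_neg (sub_ne_zero.2 ne.symm), zero_add]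
    by_cases h : ∃ z, s' - s + y z = 0
    · obtain ⟨z, hz⟩ := h
      have : ∀ e f, (∑ z', if s' - s + y z' = 0 then Pm (c z') (ε g) (t z') (β z') e f
          else 0) = Pm (c z) (ε g) (t z) (β z) e f := fun e f => by
        rw [sum_eq_single z (fun z' _ h => if_neg fun h' =>
          h (F.inj (add_left_cancel (h'.trans hz.symm)))) (by simp), if_pos hz]
      simp only [this]
      exact Pm_orth _ (hε g) (F.bt z) e f
    · simp only [if_neg fun hz => h ⟨_, hz⟩, sum_const_zero]
      fin_cases e <;> fin_cases f <;> simp [Fin.sum_univ_three] <;> norm_num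
  · let f' : Fin 3 → ZMod k → ℝ := fun e s => f e s - (∑ s, f e s) / k
    have z1 : ∀ e, ∑ s, f' e s = 0 := fun e => by
      simp only [f', sum_sub_distrib, sum_const, card_univ, ZMod.card, nsmul_eq_mul]
      field_simp
      ring
    have z2 : ∀ e, ∑ s, f e s * f e s - (∑ s, f e s) * (∑ s, f e s) / k = ∑ s, f' e s * f' e s :=
      fun e => by
        simp only [f', mul_sub, sub_mul, sum_sub_distrib, ← sum_mul, ← mul_sum, sum_const,
          card_univ, ZMod.card, nsmul_eq_mul]
        field_simp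
        ring
    have z3 : ∀ f : Fin 3 → ZMod k → ℝ, ∑ e, ∑ e', ∑ s, ∑ s', f e s * f e' s' *
        (v g s e ⬝ᵥ v g s' e') = (∑ e, ∑ s, f e s • v g s e) ⬝ᵥ ∑ e, ∑ s, f e s • v g s e :=
      fun f => by
        have := gram_sum (fun x : Fin 3 × ZMod k => f x.1 x.2) fun x => v g x.2 x.1
        simp only [Fintype.sum_prod_type] at this
        rw [← this]
        exact sum_congr rfl fun e _ => sum_comm
    have z4 : ∑ e, ∑ s, f e s • v g s e = ∑ e, ∑ s, f' e s • v g s e :=
      sum_congr rfl fun e _ => by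
        simp only [f', sub_smul, sum_sub_distrib, ← smul_sum, v, hv_sum, smul_zero, sub_zero]
    rw [z3, z4, ← z3]
    simp only [z2, same, mul_add, sum_add_distrib]
    have w1 : (∑ e, ∑ e', ∑ s, ∑ s', f' e s * f' e' s' *
        if s' - s = 0 then (if e = e' then 2 * k - 4 * a else 0) else 0) =
        (2 * k - 4 * a) * ∑ e, ∑ s, f' e s * f' e s := by
      simp only [sub_eq_zero, mul_ite, mul_zero, sum_ite_eq', mem_univ, if_true, sum_ite_irrel,
        sum_const_zero, sum_ite_eq, mul_sum]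
      exact sum_congr rfl fun _ _ => sum_congr rfl fun _ _ => by ring
    have w2 : (∑ e, ∑ e', ∑ s, ∑ s', f' e s * f' e' s' * if e = e' then -2 else 0) = 0 := by
      simp only [← sum_mul, ← mul_sum, z1, zero_mul, sum_const_zero]
    have w3 : -((∑ z, (t z + |β z|)) * ∑ e, ∑ s, f' e s * f' e s) ≤
        ∑ e, ∑ e', ∑ s, ∑ s', f' e s * f' e' s' * ∑ z,
          if s' - s + y z = 0 then Pm (c z) (ε g) (t z) (β z) e e' else 0 := by
      have e1 : ∀ e e' s, (∑ s', f' e s * f' e' s' * ∑ z,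
          if s' - s + y z = 0 then Pm (c z) (ε g) (t z) (β z) e e' else 0) =
          ∑ z, f' e s * f' e' (s - y z) * Pm (c z) (ε g) (t z) (β z) e e' := fun e e' s => by
        simp only [mul_sum]
        rw [sum_comm]
        refine sum_congr rfl fun z _ => ?_
        rw [sum_eq_single (s - y z) (fun s' _ h => by
          rw [if_neg fun h' => h (by linear_combination h'), mul_zero]) (by simp),
          if_pos (by ring)]
      simp only [e1]
      rw [sum4, sum_mul, ← sum_neg_distrib]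
      refine sum_le_sum fun z _ => le_trans (le_of_eq ?_) (sum_le_sum fun s _ =>
        Pm_ge (c z) (e := ε g) (β := β z) (hε g) (F.t0 z)
          (fun e => f' e s) fun e => f' e (s - y z))
      have e3 : ∑ s, ∑ e, f' e (s - y z) * f' e (s - y z) = _ :=
        Equiv.sum_comp (Equiv.subRight (y z)) fun s => ∑ e, f' e s * f' e s
      rw [sum_neg_distrib, ← mul_sum, sum_add_distrib, e3, sum_comm]
      ring
    rw [w1, w2]
    simp only [sum_add_distrib] at w3
    linarith
  · rw [gram, gram, ← fo_neg]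
    congr 1
    funext j
    exact g2 g h ne e f j
  · congr 1
    refine sum_congr rfl fun g _ => sum_congr rfl fun e _ => sum_congr rfl fun h _ =>
      sum_congr rfl fun f _ => ?_
    by_cases ne : g = h
    · simp only [if_pos ne]
    · simp only [if_neg ne, sq g h ne]

end gen

/-- the quadratic residues -/
def qr : Fin 3 → ZMod 7 := ![1, 2, 4]

/-- the discrete logarithm modulo three -/
def lg (j : ZMod 7) : Fin 3 := if j = 2 ∨ j = 5 then 1 else if j = 3 ∨ j = 4 then 2 else 0

/-- the quadratic character -/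
def sg (j : ZMod 7) : ℝ := if j = 1 ∨ j = 2 ∨ j = 4 then 1 else -1

theorem sg_sign (j : ZMod 7) : sg j = 1 ∨ sg j = -1 := by
  unfold sg
  split_ifs <;> simp

theorem lg_neg : ∀ j : ZMod 7, lg (-j) = lg j := by decide

theorem sg_neg {j : ZMod 7} (h : j ≠ 0) : sg (-j) = -sg j := by
  have : ∀ j : ZMod 7, j ≠ 0 → ((-j = 1 ∨ -j = 2 ∨ -j = 4) ↔ ¬(j = 1 ∨ j = 2 ∨ j = 4)) := by decide
  simp only [sg, this j h, ite_not]
  split_ifs <;> simp

theorem ch_qr {j : ZMod 7} (h : j ≠ 0) (p : Fin 3) :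
    (ch (j * qr p)).re = (ch (qr (p + lg j))).re ∧
      (ch (j * qr p)).im = sg j * (ch (qr (p + lg j))).im := by
  have : ∀ j : ZMod 7, j ≠ 0 → ∀ p, j * qr p =
      if j = 1 ∨ j = 2 ∨ j = 4 then qr (p + lg j) else -qr (p + lg j) := by decide
  rw [this j h, sg]
  split_ifs <;> simp [ch_neg]

theorem sum7 (φ : Fin 3 → ℝ) : ∑ j : ZMod 7, (if j = 0 then 0 else φ (lg j)) = 2 * ∑ i, φ i := by
  have e : (univ : Finset (ZMod 7)) = {0, 1, 2, 3, 4, 5, 6} := by decide
  rw [e, sum_insert (by decide), sum_insert (by decide), sum_insert (by decide),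
    sum_insert (by decide), sum_insert (by decide), sum_insert (by decide), sum_singleton,
    if_pos rfl, if_neg (by decide), if_neg (by decide), if_neg (by decide), if_neg (by decide),
    if_neg (by decide), if_neg (by decide), show lg 1 = 0 by decide, show lg 2 = 1 by decide,
    show lg 3 = 2 by decide, show lg 4 = 2 by decide, show lg 5 = 1 by decide,
    show lg 6 = 0 by decide, Fin.sum_univ_three]
  ring

theorem cp_Jm (Y Z : Fin 3 → ℝ) (i e f : Fin 3) :
    ∑ p, cp Y Z (p + i) * Jm p e f = Y (e + i) * Z (f + i) - Z (e + i) * Y (f + i) := by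
  fin_cases i <;> fin_cases e <;> fin_cases f <;> simp [Fin.sum_univ_three, Jm, cp] <;> ring

theorem core7 {a : ℝ} (a0 : 0 < a) (a1 : a ≤ 1 / 2) :
    ∃ (v : Fin 4 → ZMod (6 + 1) → Fin 3 → {j : ZMod (6 + 1) // j ≠ 0} × Fin 4 → ℝ) (η μ L : ℝ),
      0 < η ∧ 0 < μ ∧ Core v (2 * (6 + 1 : ℕ) - 2 - 4 * a) η μ L := by
  obtain ⟨b, e0⟩ : ∃ b : ℝ, b ^ 2 = a * (2 - a) := ⟨_, Real.sq_sqrt (by nlinarith)⟩
  have r1 := abs_le_one_of e0
  have F := pairFam (k := 7) ![1, 2, 3] id (fun _ => a) ![b, b, -b] (a := a)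
    (κ0 := 3) (j0 := 0) (by decide) (by decide) (by decide) (fun _ => a0.le)
    (fun i => by fin_cases i <;> simpa) (fun p => by simp [cut])
    (fun p => by
      fin_cases p <;> simp [cut, Fin.sum_univ_three, mul_pow] <;> nlinarith)
    (fun p => by simp [ch_zero]) (by simp [Fin.sum_univ_three]; linarith)
  generalize hy : (fun z : Fin 3 × Bool => if z.2 then ((![1, 2, 3] z.1 : ℕ) : ZMod 7)
    else -((![1, 2, 3] z.1 : ℕ) : ZMod 7)) = y at F
  generalize hc : (fun z : Fin 3 × Bool => id z.1) = c at F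
  generalize ht : (fun z : Fin 3 × Bool => (fun _ : Fin 3 => a) z.1) = t at F
  generalize hβ : (fun z : Fin 3 × Bool => if z.2 then ![b, b, -b] z.1 else -![b, b, -b] z.1) = β
    at F
  have n3 : ∀ j : ZMod 7, j * 3 = -(j * 4) := by decide
  have c1 : ∀ j p, cq y c t j p = 2 * a * (ch (j * qr p)).re := fun j p => by
    rw [← hy, ← hc, ← ht, pair_cq _ id fun _ => a]
    fin_cases p <;> simp [cut, Fin.sum_univ_three, qr, n3, ch_neg, mul_assoc]
  have c2 : ∀ j p, kp y c β j p = 2 * b * (ch (j * qr p)).im := fun j p => by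
    rw [← hy, ← hc, ← hβ, pair_kp]
    fin_cases p <;> simp [cut, Fin.sum_univ_three, qr, n3, ch_neg, mul_assoc]
  have c3 : ∀ j, j ≠ 0 → ∀ p, cq y c t j p = cq y c t 1 (p + lg j) := fun j h p => by
    rw [c1, c1, one_mul, (ch_qr h p).1]
  have c4 : ∀ j, j ≠ 0 → ∀ p, kp y c β j p = sg j * kp y c β 1 (p + lg j) := fun j h p => by
    rw [c2, c2, one_mul, (ch_qr h p).2]
    ring
  have c5 : ∀ p q, ∑ j, kp y c β j p * kp y c β j q =
      2 * ∑ i, kp y c β 1 (p + i) * kp y c β 1 (q + i) := fun p q => by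
    rw [← sum7 fun i => kp y c β 1 (p + i) * kp y c β 1 (q + i)]
    refine sum_congr rfl fun j _ => ?_
    split_ifs with h
    · rw [h, kp_zero, zero_mul]
    · rw [c4 j h, c4 j h]
      rcases sg_sign j with e | e <;> rw [e] <;> ring
  obtain ⟨X, Y, Z, r, t', lo, D⟩ := dat (κ := kp y c β 1)
    (Q := fun e => 2 * (7 : ℕ) - 4 * a + (cq y c t 1 (e + 1) + cq y c t 1 (e + 2)))
    (fun e => by
      push_cast
      linarith [(abs_le.1 (F.cq_le 1 (e + 1))).1, (abs_le.1 (F.cq_le 1 (e + 2))).1])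
    (fun e f => by
      linarith [sum3 (cq y c t 1) e, sum3 (cq y c t 1) f, (abs_le.1 (F.cq_le 1 e)).1,
        (abs_le.1 (F.cq_le 1 f)).2])
    (by
      have h1 := (F.kp_sum a1 0).1
      simp only [pow_two, c5, zero_add] at h1
      push_cast at h1
      unfold tq
      linarith)
    (by
      have := fun p => F.kp_le 1 p
      simp only [tq, Fin.sum_univ_three, ← pow_two]
      linarith [this 0, this 1, this 2])
    (by
      have h1 := F.kp_orth (show (0 : Fin 3) ≠ 1 by decide)
      rw [c5] at h1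
      simp [Fin.sum_univ_three] at h1
      simp only [tq, sq1, Fin.sum_univ_three]
      linear_combination 2 * h1)
  let V : Fin 4 → Fin 3 → ZMod 7 → Fin 4 → ℂ := fun g e j => if j = 0 then 0 else
    wv r t' (sg j) (X (e + lg j)) (Y (e + lg j)) (Z (e + lg j)) g
  have V1 : ∀ g e j, j ≠ 0 → V g e j = wv r t' (sg j) (X (e + lg j)) (Y (e + lg j)) (Z (e + lg j)) g :=
    fun g e j h => if_neg h
  have V0 : ∀ g e, V g e 0 = 0 := fun g e => if_pos rfl
  obtain ⟨v, L, C⟩ := core2 F (fun g => sd 0 g) (fun g => by exact_mod_cast sd_sign 0 g) V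
    (fun g e d j => by
      by_cases h : j = 0
      · simp [h, V0]
      · rw [V1 g e j h, V1 g e _ (neg_ne_zero.2 h), lg_neg, sg_neg h, wv_neg]) V0
    (fun g e f j => by
      by_cases h : j = 0
      · simp only [h, V0, if_true, F.cq_zero, kp_zero]
        split_ifs <;> simp
        ring
      · rw [V1 g e j h, V1 g f j h, wv_same D.circ (sg_sign j), D.gram]
        simp only [c3 j h, c4 j h, if_neg h, add_left_inj, add_zero, ← D.wedge,
          add_right_comm _ (lg j)]
        congr 3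
        simp only [mul_assoc, ← mul_sum, cp_Jm]
        ring)
    (fun g h ne e f j => by
      by_cases hj : j = 0
      · simp [hj, V0]
      · simp only [V1 _ _ j hj, wv_cross D.circ (sg_sign j) _ _ _ _ _ _ ne]
        rw [ur_skew, ui_skew]
        push_cast
        ring)
    (D := fun p => 3 * tr3 X Y Z r t' tq p + tr3 X Y Z r t' sq1 p)
    (E := fun p => tr3 X Y Z r t' sq1 p - tr3 X Y Z r t' tq p)
    (fun g h ne e f => by
      rw [← cross_sum, ← sum7]
      refine sum_congr rfl fun j _ => ?_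
      split_ifs with hj
      · simp [hj, V0]
      · simp only [V1 _ _ j hj, wv_cross D.circ (sg_sign j) _ _ _ _ _ _ ne, re_sum]
        refine sum_congr rfl fun d _ => ?_
        have e1 := s1_sq g h
        have e2 := s2_sq g h
        have e3 : sg j * sg j = 1 := by rcases sg_sign j with e | e <;> rw [e] <;> ring
        generalize ur r t' _ _ _ _ _ _ (ax g h) = x1
        generalize ur r t' _ _ _ _ _ _ (ax g h) = x2
        generalize ui t' _ _ _ _ _ _ (ax g h) = x3
        generalize ui t' _ _ _ _ _ _ (ax g h) = x4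
        simp
        linear_combination x1 * x2 * e1 + x3 * x4 * (sg j * sg j) * e2 + x3 * x4 * e3)
    (μ := lo / 10) (fun s => by linarith [D.marg s (Or.inl rfl)])
    (fun s => by linarith [D.marg s (Or.inr rfl), D.pos])
  exact ⟨v, _, _, L, sub_pos.2 F.gap, div_pos (by linarith [D.pos]) (by norm_num), C⟩

theorem low7 {α : ℝ} (h0 : 0 < α) (h1 : (1 - α) / (2 * α) < (6 : ℕ))
    (h2 : (6 : ℕ) ≤ (1 - α) / (2 * α) + 1) {η : ℝ} (hη : 0 < η) :
    ∃ m0 : ℕ, ∀ m, m0 ≤ m → ∃ (v : ℕ) (U : Fin v → Submodule ℝ (EuclideanSpace ℝ (Fin m))),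
      ((∀ i, Module.finrank ℝ (U i) = 3) ∧ ∀ i j, i ≠ j → ∀ u ∈ U i,
        ‖(U j).starProjection u‖ ^ 2 = α ^ 2 * ‖u‖ ^ 2) ∧
      ((6 : ℕ) + 1) / (6 : ℕ) * (m : ℝ) ≤ (1 + η) ^ 4 * v := by
  obtain ⟨v, η', μ, L, η0, μ0, C⟩ := core7 (a := ((6 : ℕ) - (1 - α) / (2 * α)) / 2) (by linarith)
    (by linarith)
  push_cast at h1 h2
  have := low1 (by omega) C (by simp [Fintype.card_subtype_compl, mul_comm])
    (by push_cast; linarith) η0 μ0 hη
  rwa [show 1 / (1 + (2 * ((6 + 1 : ℕ) : ℝ) - 2 - 4 * (((6 : ℕ) - (1 - α) / (2 * α)) / 2))) = α by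
    push_cast
    rw [div_eq_iff (by linarith)]
    field_simp
    ring] at this

end Pool.Agent.P.MP_c2263a_gt.Seven
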