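import Pool.Agent.P.MP_c2263a_gt.All.Alg

/-! Frames for four classes with Bloch vectors `b, b, -b, -b`. -/

set_option autoImplicit false

namespace Pool.Agent.P.MP_c2263a_gt.Seven

open Finset ComplexConjugate Complex Pool.Agent.P.MP_c2263a_gt.Fix Pool.Agent.P.MP_c2263a_gt.All

/-- the cross product -/
def cp (x y : Fin 3 → ℝ) (p : Fin 3) : ℝ := x (p + 1) * y (p + 2) - x (p + 2) * y (p + 1)

theorem frame (h a : Fin 3 → ℝ) (H : ∑ p, h p * h p = 1)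
    (c0 : (∑ p, a p * h p) ^ 2 < ∑ p, a p * a p) : ∃ e g : Fin 3 → ℝ,
    (∀ p q, h p * h q + e p * e q + g p * g q = if p = q then 1 else 0) ∧
    (∀ p, cp e g p = h p) ∧ (∀ p, cp g h p = e p) ∧ (∀ p, cp h e p = g p) ∧
    ∑ p, e p * e p = 1 ∧ ∑ p, g p * g p = 1 ∧ ∑ p, a p * e p = ∑ p, a p * g p := by
  simp only [Fin.sum_univ_three] at H c0
  obtain ⟨c, hc⟩ : ∃ c, c = cp a h := ⟨_, rfl⟩
  have c1 : c 0 = a 1 * h 2 - a 2 * h 1 := by rw [hc]; rfl
  have c2 : c 1 = a 2 * h 0 - a 0 * h 2 := by rw [hc]; rfl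
  have c3 : c 2 = a 0 * h 1 - a 1 * h 0 := by rw [hc]; rfl
  have c4 : 0 < 2 * (c 0 * c 0 + c 1 * c 1 + c 2 * c 2) := by
    have : c 0 * c 0 + c 1 * c 1 + c 2 * c 2 = (a 0 * a 0 + a 1 * a 1 + a 2 * a 2) -
        (a 0 * h 0 + a 1 * h 1 + a 2 * h 2) ^ 2 := by
      rw [c1, c2, c3]
      linear_combination (a 0 * a 0 + a 1 * a 1 + a 2 * a 2) * H
    linarith
  obtain ⟨s, S⟩ : ∃ s : ℝ, s * s * (2 * (c 0 * c 0 + c 1 * c 1 + c 2 * c 2)) = 1 :=
    ⟨1 / √(2 * (c 0 * c 0 + c 1 * c 1 + c 2 * c 2)), by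
      rw [div_mul_div_comm, Real.mul_self_sqrt c4.le, one_mul, one_div_mul_cancel c4.ne']⟩
  have O : h 0 * c 0 + h 1 * c 1 + h 2 * c 2 = 0 := by rw [c1, c2, c3]; ring
  have A : a 0 * c 0 + a 1 * c 1 + a 2 * c 2 = 0 := by rw [c1, c2, c3]; ring
  clear c1 c2 c3 hc c0 c4
  refine ⟨fun p => s * (c p + cp h c p), fun p => s * (cp h c p - c p), fun p q => ?_, fun p => ?_,
    fun p => ?_, fun p => ?_, ?_, ?_, ?_⟩
  · fin_cases p <;> fin_cases q <;> simp [cp]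
    · linear_combination (h 1 * h 1 + h 2 * h 2) * S + (1 - 2 * s * s * c 0 * c 0) * H +
        2 * s * s * (2 * h 0 * c 0 - (h 0 * c 0 + h 1 * c 1 + h 2 * c 2)) * O
    · linear_combination (-(h 0 * h 1)) * S + (-2 * s * s * c 0 * c 1) * H +
        2 * s * s * (h 0 * c 1 + h 1 * c 0) * O
    · linear_combination (-(h 0 * h 2)) * S + (-2 * s * s * c 0 * c 2) * H +
        2 * s * s * (h 0 * c 2 + h 2 * c 0) * O
    · linear_combination (-(h 0 * h 1)) * S + (-2 * s * s * c 0 * c 1) * H +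
        2 * s * s * (h 0 * c 1 + h 1 * c 0) * O
    · linear_combination (h 0 * h 0 + h 2 * h 2) * S + (1 - 2 * s * s * c 1 * c 1) * H +
        2 * s * s * (2 * h 1 * c 1 - (h 0 * c 0 + h 1 * c 1 + h 2 * c 2)) * O
    · linear_combination (-(h 1 * h 2)) * S + (-2 * s * s * c 1 * c 2) * H +
        2 * s * s * (h 1 * c 2 + h 2 * c 1) * O
    · linear_combination (-(h 0 * h 2)) * S + (-2 * s * s * c 0 * c 2) * H +
        2 * s * s * (h 0 * c 2 + h 2 * c 0) * O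
    · linear_combination (-(h 1 * h 2)) * S + (-2 * s * s * c 1 * c 2) * H +
        2 * s * s * (h 1 * c 2 + h 2 * c 1) * O
    · linear_combination (h 0 * h 0 + h 1 * h 1) * S + (1 - 2 * s * s * c 2 * c 2) * H +
        2 * s * s * (2 * h 2 * c 2 - (h 0 * c 0 + h 1 * c 1 + h 2 * c 2)) * O
  · fin_cases p <;> simp [cp]
    · linear_combination h 0 * S - 2 * s * s * c 0 * O
    · linear_combination h 1 * S - 2 * s * s * c 1 * O
    · linear_combination h 2 * S - 2 * s * s * c 2 * O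
  · fin_cases p <;> simp [cp]
    · linear_combination s * c 0 * H - s * h 0 * O
    · linear_combination s * c 1 * H - s * h 1 * O
    · linear_combination s * c 2 * H - s * h 2 * O
  · fin_cases p <;> simp [cp]
    · linear_combination -s * c 0 * H + s * h 0 * O
    · linear_combination -s * c 1 * H + s * h 1 * O
    · linear_combination -s * c 2 * H + s * h 2 * O
  · simp [cp, Fin.sum_univ_three]
    linear_combination S + s * s * (c 0 * c 0 + c 1 * c 1 + c 2 * c 2) * H -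
      s * s * (h 0 * c 0 + h 1 * c 1 + h 2 * c 2) * O
  · simp [cp, Fin.sum_univ_three]
    linear_combination S + s * s * (c 0 * c 0 + c 1 * c 1 + c 2 * c 2) * H -
      s * s * (h 0 * c 0 + h 1 * c 1 + h 2 * c 2) * O
  · simp [cp, Fin.sum_univ_three]
    linear_combination 2 * s * A

/-- squared length -/
def tq (w : Fin 3 → ℝ) : ℝ := ∑ p, w p * w p

/-- squared coordinate sum -/
def sq1 (w : Fin 3 → ℝ) : ℝ := (∑ p, w p) ^ 2

theorem tq_bd {u x : Fin 3 → ℝ} {lo : ℝ} (h : ∀ p, lo ≤ u p * u p ∧ u p * u p ≤ 6 / 5 * lo)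
    (hx : ∑ p, x p * x p = 1) :
    lo ≤ tq (fun p => u p * x p) ∧ tq (fun p => u p * x p) ≤ 6 / 5 * lo := by
  have e : tq (fun p => u p * x p) = ∑ p, u p * u p * (x p * x p) :=
    sum_congr rfl fun p _ => by ring
  rw [e]
  constructor
  · rw [← mul_one lo, ← hx, mul_sum]
    exact sum_le_sum fun p _ => mul_le_mul_of_nonneg_right (h p).1 (mul_self_nonneg _)
  · rw [← mul_one (6 / 5 * lo), ← hx, mul_sum]
    exact sum_le_sum fun p _ => mul_le_mul_of_nonneg_right (h p).2 (mul_self_nonneg _)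

/-- the data attached to one character -/
structure Dat (Q κ X Y Z : Fin 3 → ℝ) (r t lo : ℝ) : Prop where
  gram : ∀ p q, X p * X q + Y p * Y q + Z p * Z q = if p = q then Q p else 0
  wedge : ∀ p, r * cp Y Z p = κ p
  circ : r ^ 2 + t ^ 2 = 1
  small : r ^ 2 ≤ 1 / 10
  pos : 0 < lo
  ta : lo ≤ tq (cp Y Z) ∧ tq (cp Y Z) ≤ 6 / 5 * lo
  tb : lo ≤ tq (cp Z X) ∧ tq (cp Z X) ≤ 6 / 5 * lo
  tc : lo ≤ tq (cp X Y) ∧ tq (cp X Y) ≤ 6 / 5 * lo
  sa : lo ≤ sq1 (cp Y Z) ∧ sq1 (cp Y Z) ≤ 6 / 5 * lo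
  sb : 9 / 10 * lo ≤ sq1 (cp Z X) ∧ sq1 (cp Z X) ≤ 13 / 10 * lo
  sc : sq1 (cp X Y) = sq1 (cp Z X)

theorem dat {Q κ : Fin 3 → ℝ} (q0 : ∀ p, 10 ≤ Q p) (q1 : ∀ p q, Q p - Q q ≤ 2)
    (k0 : 0 < tq κ) (k1 : tq κ ≤ 10) (k2 : sq1 κ = tq κ) :
    ∃ X Y Z r t lo, Dat Q κ X Y Z r t lo := by
  obtain ⟨u, u0, hu⟩ : ∃ u : Fin 3 → ℝ, (∀ p, 0 < u p) ∧ ∀ p, u p * u p = Q p :=
    ⟨fun p => √(Q p), fun p => Real.sqrt_pos.2 (by linarith [q0 p]),
      fun p => Real.mul_self_sqrt (by linarith [q0 p])⟩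
  obtain ⟨a, ha⟩ : ∃ a : Fin 3 → ℝ, ∀ p, a p = u (p + 1) * u (p + 2) := ⟨_, fun _ => rfl⟩
  have a0 : ∀ p, 0 < a p := fun p => ha p ▸ mul_pos (u0 _) (u0 _)
  have a1 : ∀ p, a p * a p = Q (p + 1) * Q (p + 2) := fun p => by
    rw [ha, ← hu, ← hu]; ring
  obtain ⟨p0, hp⟩ := Finite.exists_min fun p => a p * a p
  obtain ⟨lo, hl⟩ : ∃ lo, lo = a p0 * a p0 := ⟨_, rfl⟩
  have l0 : 100 ≤ lo := by
    rw [hl, a1]
    nlinarith [q0 (p0 + 1), q0 (p0 + 2)]
  have l1 : ∀ p, lo ≤ a p * a p ∧ a p * a p ≤ 6 / 5 * lo := fun p => ⟨hl ▸ hp p, by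
    have b0 := q0 0
    have b1 := q0 1
    have b2 := q0 2
    rw [hl, a1, a1]
    fin_cases p <;> fin_cases p0 <;> simp <;>
      nlinarith [q1 0 1, q1 1 0, q1 0 2, q1 2 0, q1 1 2, q1 2 1]⟩
  obtain ⟨R, hR⟩ : ∃ R, R = ∑ p, κ p / a p * (κ p / a p) := ⟨_, rfl⟩
  have e0 : ∀ p, κ p * κ p = a p * a p * (κ p / a p * (κ p / a p)) := fun p => by
    have := (a0 p).ne'
    field_simp
  have R1 : lo * R ≤ tq κ := by
    rw [hR, tq, mul_sum]
    exact sum_le_sum fun p _ => e0 p ▸ mul_le_mul_of_nonneg_right (l1 p).1 (mul_self_nonneg _)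
  have R2 : tq κ ≤ 6 / 5 * lo * R := by
    rw [hR, tq, mul_sum]
    exact sum_le_sum fun p _ => e0 p ▸ mul_le_mul_of_nonneg_right (l1 p).2 (mul_self_nonneg _)
  have R0 : 0 < R := by
    by_contra c
    nlinarith [mul_nonneg (show 0 ≤ lo by linarith) (neg_nonneg.2 (not_lt.1 c))]
  have R3 : R ≤ 1 / 10 := by nlinarith
  obtain ⟨r, r0, hr⟩ : ∃ r : ℝ, 0 < r ∧ r * r = R := ⟨√R, Real.sqrt_pos.2 R0, Real.mul_self_sqrt R0.le⟩
  obtain ⟨h, hh⟩ : ∃ h : Fin 3 → ℝ, ∀ p, h p = κ p / a p / r := ⟨_, fun _ => rfl⟩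
  have H : ∑ p, h p * h p = 1 := by
    simp only [hh, div_mul_div_comm (_ / _), ← sum_div, ← hR, hr]
    exact div_self R0.ne'
  have e1 : ∀ p, r * (a p * h p) = κ p := fun p => by
    have := (a0 p).ne'
    rw [hh]
    field_simp
  have e2 : R * sq1 (fun p => a p * h p) = tq κ := by
    rw [← k2, sq1, sq1, ← hr, ← sq, ← mul_pow, mul_sum]
    simp only [e1]
  have s1 : lo ≤ sq1 fun p => a p * h p := le_of_mul_le_mul_left (by linarith) R0
  have s2 : sq1 (fun p => a p * h p) ≤ 6 / 5 * lo := le_of_mul_le_mul_left (by linarith) R0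
  have t1 : 3 * lo ≤ ∑ p, a p * a p ∧ ∑ p, a p * a p ≤ 18 / 5 * lo := by
    rw [Fin.sum_univ_three]
    constructor <;> linarith [l1 0, l1 1, l1 2]
  obtain ⟨e, g, f1, f2, f3, f4, f5, f6, f7⟩ := frame h a H (by
    have : sq1 (fun p => a p * h p) = (∑ p, a p * h p) ^ 2 := rfl
    linarith)
  have cu : ∀ x y z : Fin 3 → ℝ, (∀ p, cp x y p = z p) →
      cp (fun p => u p * x p) (fun p => u p * y p) = fun p => a p * z p := fun x y z H => by
    funext p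
    rw [← H, ha, cp, cp]
    ring
  have s3 : sq1 (fun p => a p * h p) + 2 * sq1 (fun p => a p * e p) = ∑ p, a p * a p := by
    have e3 : sq1 (fun p => a p * h p) + sq1 (fun p => a p * e p) + sq1 (fun p => a p * g p) =
        ∑ p, ∑ q, a p * a q * (h p * h q + e p * e q + g p * g q) := by
      simp only [sq1, Fin.sum_univ_three]
      ring
    simp only [f1, mul_ite, mul_one, mul_zero, sum_ite_eq, mem_univ, if_true] at e3
    rw [← e3, sq1, sq1, sq1, f7]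
    ring
  refine ⟨fun p => u p * h p, fun p => u p * e p, fun p => u p * g p, r, √(1 - R), lo,
    fun p q => ?_, fun p => ?_, ?_, by linarith, by linarith, ?_, ?_, ?_, ?_, ?_, ?_⟩
  · have := f1 p q
    split_ifs at this ⊢ with c
    · rw [← hu, ← c] at *
      linear_combination u p * u p * this
    · linear_combination u p * u q * this
  · rw [cu _ _ _ f2, e1]
  · rw [Real.sq_sqrt (by linarith)]
    linarith
  · rw [cu _ _ _ f2]
    exact tq_bd l1 H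
  · rw [cu _ _ _ f3]
    exact tq_bd l1 f5
  · rw [cu _ _ _ f4]
    exact tq_bd l1 f6
  · rw [cu _ _ _ f2]
    exact ⟨s1, s2⟩
  · rw [cu _ _ _ f3]
    constructor <;> linarith
  · rw [cu _ _ _ f4, cu _ _ _ f3, sq1, sq1, f7]

end Pool.Agent.P.MP_c2263a_gt.Seven
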