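import Pool.Agent.P.MP_c2263a_gt.Fix.Lower

/-! The lower bound `(1 - o(1)) m` for 3-planes with an arbitrary fixed angle. -/

set_option autoImplicit false

namespace Pool.Agent.P.MP_c2263a_gt.Seven

open Finset Matrix Filter Topology Pool.Agent.P.MP_c2263a_gt.Fix

theorem one0 {α : ℝ} (h0 : 0 < α) (h1 : α < 1) {q m : ℕ} (hq : Odd q) (hN : HadN (q + 1))
    (hb : 1 / α ≤ q + 1) (hm : 4 * (q * q + 4 * q) + 6 ≤ m) :
    ∃ U : Fin (4 * q * (q + 1)) → Submodule ℝ (EuclideanSpace ℝ (Fin m)),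
      (∀ i, Module.finrank ℝ (U i) = 3) ∧ ∀ i j, i ≠ j → ∀ u ∈ U i,
        ‖(U j).starProjection u‖ ^ 2 = α ^ 2 * ‖u‖ ^ 2 := by
  classical
  obtain ⟨H, o, hH⟩ := hN.on (Fin (q + 1)) (Fintype.card_fin _)
  obtain ⟨L, Ω, _, _, _, _, ι, hL, hΩ, i1, i2⟩ := net (Fin (q + 1)) hq (Fintype.card_fin _)
  have q0 : (0 : ℝ) < q + 1 := by positivity
  obtain ⟨A, hA⟩ : ∃ A : ℝ, A * (q + 1) = 1 / α - 1 := ⟨_, div_mul_cancel₀ _ q0.ne'⟩
  have A0 : 0 ≤ A := by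
    have : 1 < 1 / α := by rwa [lt_div_iff₀ h0, one_mul]
    exact le_of_mul_le_mul_right (by linarith) q0
  have A1 : A ≤ 1 := le_of_mul_le_mul_right (by linarith) q0
  obtain ⟨a, ha⟩ : ∃ a : ℝ, a * a = A := ⟨_, Real.mul_self_sqrt A0⟩
  obtain ⟨γ, γ0, hγ⟩ : ∃ γ : ℝ, 0 ≤ γ ∧ γ ^ 2 = 1 - A ^ 2 :=
    ⟨_, Real.sqrt_nonneg _, Real.sq_sqrt (by nlinarith)⟩
  have γ1 : γ ≤ 1 := by nlinarith
  obtain ⟨b, hb⟩ : ∃ b : ℝ, b * b = (1 + γ) / 2 := ⟨_, Real.mul_self_sqrt (by linarith)⟩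
  obtain ⟨c, hc⟩ : ∃ c : ℝ, c * c = (1 - γ) / 2 := ⟨_, Real.mul_self_sqrt (by linarith)⟩
  have rr : ∀ (e : Fin 3) (g h : Fin 4), ![b, c * sd e g] ⬝ᵥ ![b, c * sd e h] =
      (1 + γ) / 2 + (1 - γ) / 2 * (sd e g * sd e h : ℤ) := fun e g h => by
    simp only [dotProduct, Fin.sum_univ_two, cons_val_zero, cons_val_one, ← hb, ← hc]
    push_cast
    ring
  have yy : ∀ μ μ' x x' : Fin (q + 1), (fun _ : Unit => a * H μ x) ⬝ᵥ (fun _ => a * H μ' x') =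
      A * (H μ x * H μ' x') := fun μ μ' x x' => by
    simp only [dotProduct, univ_unique, sum_singleton, ← ha]
    ring
  have := asm (P := (Fin 4 × L) × Fin (q + 1)) h0 h1 (fun p => p.1.1)
    (fun p => vec ι p.1.1 p.1.2 fun x (_ : Unit) => a * H p.2 x)
    (fun e p => ![b, c * sd e p.1.1])
    (fun e p => by
      simp only [vec_same i1, rr, sd_self, yy, ← mul_sum, hH.orth, if_true, Fintype.card_fin]
      push_cast
      linarith)
    (fun p p' ne e => ⟨1, one_pow 2, fun s => by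
      obtain ⟨⟨g, l⟩, μ⟩ := p
      obtain ⟨⟨h, l'⟩, μ'⟩ := p'
      obtain rfl : g = h := e
      simp only [vec_same i1, rr, sd_self, yy, ← mul_sum, hH.orth]
      split_ifs with c1 c2
      · exact absurd (by rw [c1, c2]) ne
      · push_cast
        ring
      · push_cast
        ring⟩)
    (fun p p' ne => ⟨γ, by
      obtain ⟨y, y', h⟩ := i2 _ _ ne p.1.2 p'.1.2
      rw [vec_diff h, yy, mul_pow, mul_pow, hH.sq, hH.sq, hγ]
      ring, fun e => by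
      rw [rr, sd_mul _ _ _ ne]
      split_ifs <;> push_cast <;> ring⟩)
    (m := m) (by simpa [hΩ] using hm)
  rwa [show Fintype.card ((Fin 4 × L) × Fin (q + 1)) = 4 * q * (q + 1) by simp [hL]] at this

theorem lowOne {α : ℝ} (h0 : 0 < α) (h1 : α < 1) {η : ℝ} (hη : 0 < η) : ∃ m0 : ℕ, ∀ m, m0 ≤ m →
    ∃ (v : ℕ) (U : Fin v → Submodule ℝ (EuclideanSpace ℝ (Fin m))),
      ((∀ i, Module.finrank ℝ (U i) = 3) ∧ ∀ i j, i ≠ j → ∀ u ∈ U i,
        ‖(U j).starProjection u‖ ^ 2 = α ^ 2 * ‖u‖ ^ 2) ∧ 1 * (m : ℝ) ≤ (1 + η) ^ 4 * v := by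
  obtain ⟨x0, hx⟩ := had_dense hη
  have lim : Tendsto (fun m : ℕ => √((m : ℝ) / (4 * (1 + η)))) atTop atTop :=
    Real.tendsto_sqrt_atTop.comp (tendsto_natCast_atTop_atTop.atTop_div_const (by positivity))
  obtain ⟨m0, hm0⟩ := eventually_atTop.1 ((((lim.eventually_ge_atTop (x0 * 2)).and
    (lim.eventually_ge_atTop (6 / η + 1))).and
    (lim.eventually_ge_atTop ((1 + η) ^ 2 / η))).and
    (lim.eventually_ge_atTop ((1 + η) * (1 / α))))
  refine ⟨m0, fun m hm => ?_⟩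
  obtain ⟨⟨⟨a1, a2⟩, a3⟩, a4⟩ := hm0 m hm
  have s2 : √((m : ℝ) / (4 * (1 + η))) ^ 2 * (4 * (1 + η)) = m := by
    rw [Real.sq_sqrt (by positivity), div_mul_cancel₀ _ (by positivity)]
  have s0 := Real.sqrt_nonneg ((m : ℝ) / (4 * (1 + η)))
  generalize √((m : ℝ) / (4 * (1 + η))) = s at a1 a2 a3 a4 s2 s0
  obtain ⟨N, hN, b1, b2⟩ := hx (s / 2) (by linarith)
  have b3 : 1 / α ≤ 2 * N := le_of_mul_le_mul_left (a := 1 + η) (by linarith) (by positivity)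
  have b4 : 0 < N := by
    have : 0 < 1 / α := by positivity
    exact_mod_cast (show (0 : ℝ) < N by linarith)
  obtain ⟨q, hq⟩ : ∃ q, q + 1 = 2 * N := ⟨2 * N - 1, by omega⟩
  have b5 : (q : ℝ) + 1 = 2 * N := by exact_mod_cast hq
  have q0 : (0 : ℝ) ≤ q := Nat.cast_nonneg q
  have q1 : (q : ℝ) ≤ s := by linarith
  have s1 : 1 ≤ s := le_trans (le_add_of_nonneg_left (by positivity)) a2
  have s3 : 6 ≤ s * η := by
    rw [← div_le_iff₀ hη]
    linarith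
  rw [div_le_iff₀ hη] at a3
  obtain ⟨U, hU⟩ := one0 h0 h1 (q := q) (m := m) (Nat.odd_iff.2 (by omega)) (hq ▸ had2.mul hN)
    (by rwa [b5]) (by
    have e1 := mul_self_le_mul_self q0 q1
    have e2 := mul_le_mul_of_nonneg_left s3 s0
    have : (4 * (q * q + 4 * q) + 6 : ℝ) ≤ m := by nlinarith
    exact_mod_cast this)
  refine ⟨_, U, hU, ?_⟩
  push_cast
  have z1 : s ≤ (1 + η) * (q + 1) := by rw [b5]; linarith
  have z2 : (q + 1 : ℝ) ≤ (1 + η) * q := by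
    have : (1 + η) * (1 + η) ≤ (1 + η) * (η * (q + 1)) := by nlinarith
    have := le_of_mul_le_mul_left this (by positivity)
    nlinarith
  have z3 : s * s ≤ (1 + η) * (q + 1) * ((1 + η) * ((1 + η) * q)) :=
    mul_le_mul z1 (z1.trans (mul_le_mul_of_nonneg_left z2 (by positivity))) s0 (by positivity)
  have z4 := mul_le_mul_of_nonneg_left z3 (show 0 ≤ 4 * (1 + η) by positivity)
  rw [← s2]
  linarith

end Pool.Agent.P.MP_c2263a_gt.Seven
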