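import Pool.Agent.P.MP_c2263a_gt.Seven.Frame

/-! The four complex vectors attached to a real triple, and the margin. -/

set_option autoImplicit false

namespace Pool.Agent.P.MP_c2263a_gt.Seven

open Finset ComplexConjugate Complex Pool.Agent.P.MP_c2263a_gt.Fix Pool.Agent.P.MP_c2263a_gt.All

/-- the four vectors -/
noncomputable def wv (r t s x y z : ℝ) : Fin 4 → Fin 4 → ℂ :=
  ![![r * x, z - I * (s * r * y), t * y, I * (s * t * x)],
    ![t * y, I * (s * t * x), r * x, z - I * (s * r * y)],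
    ![z + I * (s * r * y), -(r * x), -(I * (s * t * x)), -(t * y)],
    ![-(I * (s * t * x)), -(t * y), z + I * (s * r * y), -(r * x)]]

theorem wv_neg (r t s x y z : ℝ) (g d : Fin 4) :
    wv r t (-s) x y z g d = conj (wv r t s x y z g d) := by
  fin_cases g <;> fin_cases d <;> simp [wv, sub_eq_add_neg]

theorem wv_same {r t s : ℝ} (h : r ^ 2 + t ^ 2 = 1) (hs : s = 1 ∨ s = -1) (x y z x' y' z' : ℝ)
    (g : Fin 4) : ∑ d, conj (wv r t s x y z g d) * wv r t s x' y' z' g d =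
      ((x * x' + y * y' + z * z' : ℝ) : ℂ) + I * (s * sd 0 g * (r * (y * z' - z * y')) : ℝ) := by
  apply Complex.ext <;> rcases hs with rfl | rfl <;> fin_cases g <;>
    simp [wv, Fin.sum_univ_four, sd] <;>
    first | ring1 | linear_combination (x * x' + y * y') * h

/-- real part of a cross entry, up to sign -/
def ur (r t x y z x' y' z' : ℝ) : Fin 3 → ℝ := ![0, r * (x * z' - z * x'), t * (y * z' - z * y')]

/-- imaginary part of a cross entry, up to sign -/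
def ui (t x y z x' y' z' : ℝ) : Fin 3 → ℝ := ![t * (x * z' - z * x'), x * y' - y * x', 0]

/-- signs of the real parts -/
def s1 (g h : Fin 4) : ℝ := if g < h then 1 else -1

/-- signs of the imaginary parts -/
def s2 (g h : Fin 4) : ℝ := if g < 2 ∧ h < 2 then -1 else 1

theorem s1_sq (g h : Fin 4) : s1 g h * s1 g h = 1 := by
  unfold s1
  split_ifs <;> norm_num

theorem s2_sq (g h : Fin 4) : s2 g h * s2 g h = 1 := by
  unfold s2
  split_ifs <;> norm_num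

theorem wv_cross {r t s : ℝ} (h : r ^ 2 + t ^ 2 = 1) (hs : s = 1 ∨ s = -1) (x y z x' y' z' : ℝ)
    {g g' : Fin 4} (ne : g ≠ g') : ∑ d, conj (wv r t s x y z g d) * wv r t s x' y' z' g' d =
      ((s1 g g' * ur r t x y z x' y' z' (ax g g') : ℝ) : ℂ) +
        I * (s * s2 g g' * ui t x y z x' y' z' (ax g g') : ℝ) := by
  apply Complex.ext <;> rcases hs with rfl | rfl <;> fin_cases g <;> fin_cases g' <;> first
    | exact absurd rfl ne
    | (simp [wv, Fin.sum_univ_four, s1, s2, ur, ui, ax] <;> first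
        | ring1
        | linear_combination (x * y' - y * x') * h
        | linear_combination (y * x' - x * y') * h)

theorem ur_skew (r t x y z x' y' z' : ℝ) (p : Fin 3) :
    ur r t x y z x' y' z' p = -ur r t x' y' z' x y z p := by
  fin_cases p <;> simp [ur] <;> ring

theorem ui_skew (t x y z x' y' z' : ℝ) (p : Fin 3) :
    ui t x y z x' y' z' p = -ui t x' y' z' x y z p := by
  fin_cases p <;> simp [ui] <;> ring

/-- traces of the cross blocks -/
def tr3 (X Y Z : Fin 3 → ℝ) (r t : ℝ) (φ : (Fin 3 → ℝ) → ℝ) : Fin 3 → ℝ :=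
  ![t ^ 2 * φ (cp Z X), r ^ 2 * φ (cp Z X) + φ (cp X Y), t ^ 2 * φ (cp Y Z)]

theorem cross_sum (X Y Z : Fin 3 → ℝ) (r t : ℝ) (p e f : Fin 3) :
    2 * ∑ i, ∑ d, (ur r t (X (e + i)) (Y (e + i)) (Z (e + i)) (X (d + i)) (Y (d + i)) (Z (d + i)) p *
        ur r t (X (f + i)) (Y (f + i)) (Z (f + i)) (X (d + i)) (Y (d + i)) (Z (d + i)) p +
      ui t (X (e + i)) (Y (e + i)) (Z (e + i)) (X (d + i)) (Y (d + i)) (Z (d + i)) p *
        ui t (X (f + i)) (Y (f + i)) (Z (f + i)) (X (d + i)) (Y (d + i)) (Z (d + i)) p) =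
      (if e = f then 3 * tr3 X Y Z r t tq p + tr3 X Y Z r t sq1 p else 0) -
        (tr3 X Y Z r t sq1 p - tr3 X Y Z r t tq p) := by
  fin_cases p <;> fin_cases e <;> fin_cases f <;>
    simp [Fin.sum_univ_three, ur, ui, tr3, tq, sq1, cp] <;> ring

theorem Dat.marg {Q κ X Y Z : Fin 3 → ℝ} {r t lo : ℝ} (D : Dat Q κ X Y Z r t lo) (s : Fin 3)
    {c : ℝ} (hc : c = 1 ∨ c = -1) : lo / 10 ≤
      (3 * tr3 X Y Z r t tq (s + 1) + c * tr3 X Y Z r t sq1 (s + 1)) +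
      (3 * tr3 X Y Z r t tq (s + 2) + c * tr3 X Y Z r t sq1 (s + 2)) -
      (3 * tr3 X Y Z r t tq s + c * tr3 X Y Z r t sq1 s) := by
  obtain ⟨-, -, h, r1, l0, ⟨a1, a2⟩, ⟨b1, b2⟩, ⟨c1, c2⟩, ⟨d1, d2⟩, ⟨e1, e2⟩, e3⟩ := D
  have r0 := sq_nonneg r
  have ht : t ^ 2 = 1 - r ^ 2 := by linarith
  have r2 : 0 ≤ 1 / 10 - r ^ 2 := by linarith
  rcases hc with rfl | rfl <;> fin_cases s <;> simp [tr3, ht, e3] <;>
    nlinarith [mul_nonneg r0 (sub_nonneg.2 a1), mul_nonneg r0 (sub_nonneg.2 a2),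
      mul_nonneg r0 (sub_nonneg.2 b1), mul_nonneg r0 (sub_nonneg.2 b2),
      mul_nonneg r0 (sub_nonneg.2 d1), mul_nonneg r0 (sub_nonneg.2 d2),
      mul_nonneg r0 (sub_nonneg.2 e1), mul_nonneg r0 (sub_nonneg.2 e2), mul_nonneg r2 l0.le,
      mul_nonneg r0 l0.le]

theorem marg2 (D E : Fin 3 → ℝ) {μ : ℝ} (h1 : ∀ s, μ ≤ D (s + 1) + D (s + 2) - D s)
    (h2 : ∀ s, μ ≤ (D (s + 1) - 3 * E (s + 1)) + (D (s + 2) - 3 * E (s + 2)) - (D s - 3 * E s)) :
    ∃ L : ℝ, ∀ F : Fin 4 → Fin 3 → ℝ,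
    μ * ∑ g, ∑ a, F g a * F g a - L * ∑ a, (∑ g, F g a) ^ 2 ≤
      -∑ g, ∑ a, ∑ h, ∑ b, F g a *
        (if g = h then 0 else (if a = b then D (ax g h) else 0) - E (ax g h)) * F h b := by
  obtain ⟨L1, hL1⟩ := marg_alg (fun r _ => D r) fun s _ => h1 s
  obtain ⟨L2, hL2⟩ := marg_alg (fun r _ => D r - 3 * E r) fun s _ => h2 s
  refine ⟨|L1| + |L2|, fun F => ?_⟩
  have b1 := hL1 fun g a => F g a - (∑ c, F g c) / 3
  have b2 := hL2 fun g _ => (∑ c, F g c) / 3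
  have e1 : ∑ g, ∑ a, F g a * F g a = ∑ g, ∑ a, (F g a - (∑ c, F g c) / 3) *
      (F g a - (∑ c, F g c) / 3) + ∑ g, ∑ _a : Fin 3, (∑ c, F g c) / 3 * ((∑ c, F g c) / 3) := by
    rw [← sum_add_distrib]
    refine sum_congr rfl fun g _ => ?_
    simp only [Fin.sum_univ_three]
    ring
  have e2 : ∑ a, (∑ g, F g a) ^ 2 = ∑ a, (∑ g, (F g a - (∑ c, F g c) / 3)) ^ 2 +
      ∑ _a : Fin 3, (∑ g, (∑ c, F g c) / 3) ^ 2 := by
    simp only [Fin.sum_univ_three, Fin.sum_univ_four]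
    ring
  have e3 : ∑ g, ∑ a, ∑ h, ∑ b, F g a *
        (if g = h then 0 else (if a = b then D (ax g h) else 0) - E (ax g h)) * F h b =
      ∑ g, ∑ a, ∑ h, ∑ b, (F g a - (∑ c, F g c) / 3) *
        (if g = h then 0 else if a = b then D (ax g h) else 0) * (F h b - (∑ c, F h c) / 3) +
      ∑ g, ∑ a : Fin 3, ∑ h, ∑ b : Fin 3, (∑ c, F g c) / 3 *
        (if g = h then 0 else if a = b then D (ax g h) - 3 * E (ax g h) else 0) *
          ((∑ c, F h c) / 3) := by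
    rw [← sum_add_distrib]
    refine sum_congr rfl fun g _ => ?_
    rw [sum_comm, sum_comm (s := univ (α := Fin 3)) (t := univ (α := Fin 4)),
      sum_comm (s := univ (α := Fin 3)) (t := univ (α := Fin 4)), ← sum_add_distrib]
    refine sum_congr rfl fun h _ => ?_
    split_ifs
    · simp
    · simp [Fin.sum_univ_three]
      ring
  rw [e1, e2, e3]
  have p1 : 0 ≤ ∑ a, (∑ g, (F g a - (∑ c, F g c) / 3)) ^ 2 := sum_nonneg fun _ _ => sq_nonneg _
  have p2 : 0 ≤ ∑ _a : Fin 3, (∑ g, (∑ c, F g c) / 3) ^ 2 := sum_nonneg fun _ _ => sq_nonneg _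
  nlinarith [mul_le_mul_of_nonneg_right (le_abs_self L1) p1,
    mul_le_mul_of_nonneg_right (le_abs_self L2) p2, mul_nonneg (abs_nonneg L1) p2,
    mul_nonneg (abs_nonneg L2) p1]

end Pool.Agent.P.MP_c2263a_gt.Seven
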